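import Pool.Agent.MP_09973c_nt.H58.SpecF

/-!
Ramification of radical towers at the poles.
-/

set_option autoImplicit false

namespace Pool.Agent.MP_09973c_nt.H55

open Polynomial Finset IntermediateField Pool.Agent.MP_09973c_nt.H58

section Arith

theorem exists_split {n r i : ℕ} (hn : 0 < n) (hr : 0 < r) (h : n < 2 ^ i) :
    ∃ R a : ℕ, 0 < R ∧ R ∣ r ^ i ∧ a * r ^ i = n * R ∧ a.Coprime (r * R) := by
  have hg : 0 < Nat.gcd n (r ^ i) := Nat.gcd_pos_of_pos_left _ hn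
  obtain ⟨a, ha⟩ := Nat.gcd_dvd_left n (r ^ i)
  obtain ⟨R, hR⟩ := Nat.gcd_dvd_right n (r ^ i)
  have hc : a.Coprime R := by
    have h1 := Nat.coprime_div_gcd_div_gcd hg
    rwa [Nat.div_eq_of_eq_mul_right hg ha, Nat.div_eq_of_eq_mul_right hg hR] at h1
  have hri : 0 < r ^ i := pow_pos hr i
  refine ⟨R, a, Nat.pos_of_ne_zero fun h0 => by rw [h0, mul_zero] at hR; omega,
    Dvd.intro_left _ hR.symm, ?_, Nat.Coprime.mul_right ?_ hc⟩
  · generalize Nat.gcd n (r ^ i) = g at ha hR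
    rw [hR, ha]; ring
  · refine Nat.coprime_of_dvd fun p hp hpa hpr => ?_
    have h1 : (p ^ i).Coprime R :=
      Nat.Coprime.pow_left _ (Nat.Coprime.coprime_dvd_left hpa hc)
    have h2 : p ^ i ∣ Nat.gcd n (r ^ i) :=
      h1.dvd_of_dvd_mul_right (hR ▸ pow_dvd_pow_of_dvd hpr i)
    have h3 := Nat.le_of_dvd hn (h2.trans (Nat.gcd_dvd_left _ _))
    have h4 : 2 ^ i ≤ p ^ i := Nat.pow_le_pow_left hp.two_le i
    omega

end Arith

section Lv

variable {Ω : Type}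

theorem lv_zero (w : ℕ → Ω) : lv w 0 = {w 0} := by
  ext x; simp [lv, eq_comm]

theorem lv_succ (w : ℕ → Ω) (i : ℕ) : lv w (i + 1) = insert (w (i + 1)) (lv w i) := by
  rw [lv, lv, ← Set.image_insert_eq]
  congr 1
  ext x; simp only [Set.mem_Iic, Set.mem_insert_iff]; omega

theorem lv_finite (w : ℕ → Ω) (i : ℕ) : (lv w i).Finite := (Set.finite_Iic i).image _

theorem lv_mono (w : ℕ → Ω) {i j : ℕ} (h : i ≤ j) : lv w i ⊆ lv w j :=
  Set.image_mono (Set.Iic_subset_Iic.2 h)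

theorem mem_lv (w : ℕ → Ω) {i j : ℕ} (h : i ≤ j) : w i ∈ lv w j := ⟨i, h, rfl⟩

end Lv

variable {k Ω : Type} [Field k] [Field Ω] [Algebra k Ω]

/-- `t` is the order of an element of `k(S)`. -/
def Val (P : Plc k Ω) (S : Set Ω) (t : ℝ) : Prop := ∃ x ∈ adjoin k S, x ≠ 0 ∧ P.ord x = t

theorem Val.comb {P : Plc k Ω} {S : Set Ω} {t t' : ℝ} (h : Val P S t) (h' : Val P S t')
    (a b : ℤ) : Val P S (a * t + b * t') := by
  obtain ⟨x, hx, hx0, rfl⟩ := h
  obtain ⟨y, hy, hy0, rfl⟩ := h'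
  refine ⟨x ^ a * y ^ b, mul_mem (zpow_mem hx _) (zpow_mem hy _),
    mul_ne_zero (zpow_ne_zero _ hx0) (zpow_ne_zero _ hy0), ?_⟩
  rw [P.ord_mul (zpow_ne_zero _ hx0) (zpow_ne_zero _ hy0), P.ord_zpow, P.ord_zpow]

theorem Val.bez {P : Plc k Ω} {S : Set Ω} {e : ℝ} (he : e ≠ 0) {R : ℕ} (hR : 0 < R) {a : ℤ}
    (hc : IsCoprime a (R : ℤ)) (h : Val P S (1 / e)) (h' : Val P S (a / (e * R))) :
    Val P S (1 / (e * R)) := by
  obtain ⟨u, v, huv⟩ := hc
  have h1 : (u : ℝ) * a + v * R = 1 := by exact_mod_cast huv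
  have hR' : (R : ℝ) ≠ 0 := by positivity
  have h2 : 1 / (e * R) = (u : ℝ) * (a / (e * R)) + v * (1 / e) := by
    field_simp
    linear_combination -h1
  rw [h2]; exact h'.comb h u v

theorem Val.lcm {P : Plc k Ω} {S : Set Ω} {e : ℝ} (he : e ≠ 0) {R R' : ℕ} (hR : 0 < R)
    (hR' : 0 < R') (h : Val P S (1 / (e * R))) (h' : Val P S (1 / (e * R'))) :
    Val P S (1 / (e * (Nat.lcm R R' : ℕ))) := by
  have h1 : ((Nat.gcd R R' : ℕ) : ℝ) = R * (Nat.gcdA R R' : ℤ) + R' * (Nat.gcdB R R' : ℤ) := by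
    exact_mod_cast Nat.gcd_eq_gcd_ab R R'
  have h2 : ((Nat.gcd R R' : ℕ) : ℝ) * (Nat.lcm R R' : ℕ) = R * R' := by
    exact_mod_cast Nat.gcd_mul_lcm R R'
  have h3 : (R : ℝ) ≠ 0 := by positivity
  have h4 : (R' : ℝ) ≠ 0 := by positivity
  have h5 : ((Nat.lcm R R' : ℕ) : ℝ) ≠ 0 := by
    exact_mod_cast (Nat.lcm_pos hR hR').ne'
  have h6 : 1 / (e * (Nat.lcm R R' : ℕ)) = ((Nat.gcdB R R' : ℤ) : ℝ) * (1 / (e * R)) +
      ((Nat.gcdA R R' : ℤ) : ℝ) * (1 / (e * R')) := by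
    field_simp
    linear_combination ((Nat.lcm R R' : ℕ) : ℝ) * h1 - h2
  rw [h6]; exact h.comb h' (Nat.gcdB R R') (Nat.gcdA R R')

section Tower

variable {r s J : ℕ} {S₀ : Set Ω} (T : Tw k r s J S₀) (P : Plc k Ω)

theorem w0_mem {S : Set Ω} (h : T.b ∈ adjoin k S) : T.w 0 ∈ adjoin k S := by
  rw [T.h0]; exact mul_mem (IntermediateField.algebraMap_mem _ _) h

theorem pow_mem_lv (S : Set Ω) {i : ℕ} (hi : i < J) :
    T.w (i + 1) ^ r ∈ adjoin k (S ∪ lv T.w i) := by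
  rw [T.hw i hi]
  exact add_mem (pow_mem (subset_adjoin k (S ∪ lv T.w i) (Or.inr (mem_lv _ le_rfl))) _)
    (IntermediateField.algebraMap_mem _ _)

theorem ord_pole (hr : 0 < r) (hs : 0 < s) (h : P.ord T.b < 0) :
    ∀ l ≤ J, P.ord (T.w l) = ((s : ℝ) / r) ^ l * P.ord T.b := by
  intro l
  induction l with
  | zero =>
    intro _
    rw [T.h0, P.ord_mul (by simpa using T.hκ) (P.ne_zero_of_ord h.ne), P.ord_const]; simp
  | succ l ih =>
    intro hl
    have h1 := ih (by omega)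
    have hr' : (0 : ℝ) < r := by exact_mod_cast hr
    have hs' : (0 : ℝ) < s := by exact_mod_cast hs
    have h2 : P.ord (T.w l ^ s) < 0 := by
      rw [P.ord_pow, h1]
      exact mul_neg_of_pos_of_neg hs' (mul_neg_of_pos_of_neg (by positivity) h)
    have h3 : P.ν (T.w l ^ s + algebraMap k Ω T.c) = P.ν (T.w l ^ s) :=
      P.ν.map_add_eq_of_lt_left ((P.triv _).trans_lt (P.ord_neg_iff.1 h2))
    have h4 := P.ord_congr h3
    rw [← T.hw l (by omega), P.ord_pow, P.ord_pow, h1] at h4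
    rw [pow_succ]
    field_simp
    field_simp at h4
    linear_combination h4

theorem vg_lv [IsAlgClosed Ω] [CharZero k] (hr : 0 < r) {S : Set Ω} {g : ℝ} (h : P.VG S g)
    (hb : T.b ∈ adjoin k S) : ∀ i ≤ J, (∀ l ≤ i, ∃ n : ℤ, P.ord (T.w l) = n * g) →
      P.VG (S ∪ lv T.w i) g := by
  intro i
  induction i with
  | zero =>
    intro _ _
    refine h.anti (Set.union_subset (subset_adjoin k S) ?_)
    rw [lv_zero]; exact Set.singleton_subset_iff.2 (w0_mem T hb)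
  | succ i ih =>
    intro hi ho
    rw [lv_succ, Set.union_insert]
    exact (ih (by omega) fun l hl => ho l (by omega)).adj hr (pow_mem_lv T S (by omega))
      (ho _ le_rfl)

theorem ν_le_one (hr : 0 < r) (h : P.ν T.b ≤ 1) : ∀ l ≤ J, P.ν (T.w l) ≤ 1 := by
  intro l
  induction l with
  | zero =>
    intro _
    rw [T.h0, map_mul]
    exact mul_le_one' (P.triv _) h
  | succ l ih =>
    intro hl
    have h1 : P.ν (T.w (l + 1)) ^ r ≤ 1 := by
      rw [← map_pow, T.hw l (by omega)]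
      refine P.ν.map_add_le ?_ (P.triv _)
      rw [map_pow]; exact pow_le_one' (ih (by omega)) _
    exact (pow_le_one_iff hr.ne').1 h1

theorem not_two (hr : 0 < r) (hs : 0 < s) {l : ℕ} (hl : l < J) (h : P.ν (T.w l) < 1) :
    ¬ P.ν (T.w (l + 1)) < 1 := by
  intro h'
  have h1 : P.ν (T.w l ^ s + algebraMap k Ω T.c) = P.ν (algebraMap k Ω T.c) :=
    P.ν.map_add_eq_of_lt_right (by
      rw [P.ν_const T.hc, map_pow]; exact pow_lt_one' h hs.ne')
  rw [← T.hw l hl, P.ν_const T.hc, map_pow] at h1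
  exact (pow_lt_one' h' hr.ne').ne h1

open Classical in
theorem nz_le (hr : 0 < r) (hs : 0 < s) :
    ∀ j ≤ J, 2 * P.nz T.w j ≤ j + if P.ν (T.w j) < 1 then 1 else 0 := by
  intro j
  induction j with
  | zero => intro _; rw [Plc.nz_zero]; omega
  | succ j ih =>
    intro hj
    have h1 := ih (by omega)
    rw [Plc.nz_succ]
    by_cases h2 : P.ν (T.w (j + 1)) < 1
    · have h3 : ¬ P.ν (T.w j) < 1 := fun h3 => not_two T P hr hs (by omega) h3 h2
      rw [if_neg h3] at h1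
      rw [if_pos h2]; omega
    · rw [if_neg h2]
      split_ifs at h1 <;> omega

theorem vg_nz [IsAlgClosed Ω] [CharZero k] (hr : 0 < r) {S : Set Ω} {e : ℝ} (he : e ≠ 0)
    (h : P.VG S (1 / e)) (hb : T.b ∈ adjoin k S) (h1 : P.ν T.b ≤ 1) :
    ∀ j ≤ J, P.VG (S ∪ lv T.w j) (1 / (e * (r : ℝ) ^ P.nz T.w j)) := by
  intro j
  have hr' : (r : ℝ) ≠ 0 := by positivity
  induction j with
  | zero =>
    intro _
    rw [Plc.nz_zero, pow_zero, mul_one]
    refine h.anti (Set.union_subset (subset_adjoin k S) ?_)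
    rw [lv_zero]; exact Set.singleton_subset_iff.2 (w0_mem T hb)
  | succ j ih =>
    intro hj
    have h2 := ih (by omega)
    have h3 := pow_mem_lv T S (show j < J by omega)
    rw [lv_succ, Set.union_insert, Plc.nz_succ]
    by_cases h4 : P.ν (T.w (j + 1)) < 1
    · rw [if_pos h4]
      refine (h2.div (r : ℤ) (by push_cast; rw [pow_succ]; field_simp)).adj hr h3 ?_
      by_cases h0 : T.w (j + 1) = 0
      · exact ⟨0, by simp [h0]⟩
      obtain ⟨n, hn⟩ := h2 _ h3 (pow_ne_zero _ h0)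
      refine ⟨n, ?_⟩
      rw [P.ord_pow] at hn
      rw [pow_succ]
      field_simp
      field_simp at hn
      linear_combination hn
    · rw [if_neg h4, add_zero]
      exact h2.adj hr h3 ⟨0, by
        rw [P.ord_eq_zero (le_antisymm (ν_le_one T P hr h1 _ hj) (not_lt.1 h4))]; simp⟩

end Tower

variable [CharZero k] [IsAlgClosed Ω]

/-- An order with denominator `n` bounds the degree from below. -/
theorem deg_le {P : Plc k Ω} {S S' : Set Ω} (hS : Algebra.IsAlgebraic (adjoin k S) Ω)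
    (hf : S'.Finite) {g : ℝ} (h : P.VG S g) (hg : g ≠ 0) {z : Ω} (hz : z ≠ 0)
    (hm : z ∈ adjoin k S') {n : ℕ} {a : ℤ} (ha : IsCoprime (n : ℤ) a)
    (ho : n * P.ord z = a * g) : n ≤ (Fix k S').relIndex (Fix k S) := by
  have := card_le_relIndex hS (relIndex_ne_zero_of_finite hS hf) _
    (fun e : Fin n => pow_mem (adjoin.mono k _ _ Set.subset_union_right hm) (e : ℕ))
    (h.powInd hg hz ha ho)
  simpa using this

section Main

variable {r s J Δ : ℕ} {S₀ : Set Ω}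

omit [CharZero k] [IsAlgClosed Ω] in
theorem fin_F (hB : Bs k S₀ Δ) (w w' : ℕ → Ω) (i j : ℕ) :
    (S₀ ∪ lv w i ∪ lv w' j).Finite :=
  (hB.fin.union (lv_finite _ _)).union (lv_finite _ _)

omit [CharZero k] [IsAlgClosed Ω] in
theorem alg_of (hB : Bs k S₀ Δ) {b : Ω} (hb : b ∈ S₀) {S : Set Ω} (h : b ∈ S) :
    Algebra.IsAlgebraic (adjoin k S) Ω :=
  isAlgebraic_mono (Set.singleton_subset_iff.2 (subset_adjoin k S h)) (hB.tr b hb).2

omit [CharZero k] [IsAlgClosed Ω] in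
theorem dl_mul (w w' : ℕ → Ω) {i i' j j' : ℕ} (hi : i ≤ i') (hj : j ≤ j') :
    (Fix k (S₀ ∪ lv w i' ∪ lv w' j')).relIndex (Fix k (S₀ ∪ lv w i ∪ lv w' j)) *
      dl k S₀ w w' i j = dl k S₀ w w' i' j' :=
  Subgroup.relIndex_mul_relIndex _ _ _
    (Fix_anti (Set.union_subset_union (Set.union_subset_union_right _ (lv_mono w hi))
      (lv_mono w' hj)))
    (Fix_anti (Set.subset_union_left.trans Set.subset_union_left))

omit [CharZero k] [IsAlgClosed Ω] in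
theorem dl_symm (w w' : ℕ → Ω) (i j : ℕ) : dl k S₀ w w' i j = dl k S₀ w' w j i := by
  rw [dl, dl, Set.union_right_comm]

theorem low (A : Tw k r s J S₀) (w' : ℕ → Ω) (hr : 0 < r) (hs : 0 < s) (hrs : r.Coprime s)
    (hB : Bs k S₀ Δ) {P : Plc k Ω} (hP : P.ord A.b = -1) (hV : P.VG {A.b} 1) {i : ℕ}
    (hi : i ≤ J) : r ^ i ≤ Δ * dl k S₀ A.w w' i 0 := by
  have h1 := ord_pole A P hr hs (by rw [hP]; norm_num) i hi
  have hr' : (0 : ℝ) < r := by exact_mod_cast hr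
  have hs' : (0 : ℝ) < s := by exact_mod_cast hs
  have h2 : r ^ i ≤ (Fix k (S₀ ∪ lv A.w i ∪ lv w' 0)).relIndex (Fix k {A.b}) := by
    refine deg_le (hB.tr _ A.hb).2 (fin_F hB _ _ _ _) hV one_ne_zero (z := A.w i)
      (P.ne_zero_of_ord ?_) (subset_adjoin k _ (Or.inl (Or.inr (mem_lv _ le_rfl))))
      (a := -(s : ℤ) ^ i) ?_ ?_
    · rw [h1, hP]; positivity
    · push_cast
      exact (Nat.isCoprime_iff_coprime.2 hrs).pow.neg_right
    · rw [h1, hP]; push_cast; rw [div_pow]; field_simp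
  rw [← Subgroup.relIndex_mul_relIndex _ (Fix k S₀) _
    (Fix_anti (Set.subset_union_left.trans Set.subset_union_left))
    (Fix_anti (Set.singleton_subset_iff.2 A.hb))] at h2
  rw [mul_comm]
  exact h2.trans (Nat.mul_le_mul_left _ (hB.deg _ A.hb).2)

omit [CharZero k] [IsAlgClosed Ω] in
/-- Orders along a tower with a pole. -/
theorem pole_data (T : Tw k r s J S₀) (hr : 0 < r) (hs : 0 < s) (hrs : r.Coprime s)
    {P : Plc k Ω} {e n : ℕ} (he : 0 < e) (hn : 0 < n) (hP : P.ord T.b = -((n : ℝ) / e)) {i : ℕ}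
    (hi : i < J) (hni : n < 2 ^ i) : ∃ R : ℕ, 0 < R ∧
      (∀ M : ℕ, 0 < M → R ∣ M → ∀ l ≤ i, ∃ m : ℤ, P.ord (T.w l) = m * (1 / ((e : ℝ) * M))) ∧
      ∀ S : Set Ω, T.w (i + 1) ∈ adjoin k S → Val P S (1 / e) →
        Val P S (1 / ((e * r : ℝ) * R)) := by
  obtain ⟨R, a, hR, hRd, ha, hc⟩ := exists_split hn hr hni
  have hr' : (0 : ℝ) < r := by exact_mod_cast hr
  have hs' : (0 : ℝ) < s := by exact_mod_cast hs
  have he' : (0 : ℝ) < e := by exact_mod_cast he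
  have hn' : (0 : ℝ) < n := by exact_mod_cast hn
  have hR' : (0 : ℝ) < R := by exact_mod_cast hR
  have ha' : (a : ℝ) * r ^ i = n * R := by exact_mod_cast ha
  have h0 : P.ord T.b < 0 := by rw [hP, neg_lt_zero]; positivity
  have h1 := ord_pole T P hr hs h0
  refine ⟨R, hR, fun M hM ⟨c, hc'⟩ l hl => ?_, fun S hS hV => ?_⟩
  · obtain ⟨d, rfl⟩ := Nat.exists_eq_add_of_le hl
    refine ⟨-(s ^ l * a * r ^ d * c), ?_⟩
    have hM' : (0 : ℝ) < M := by exact_mod_cast hM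
    have hc'' : (M : ℝ) = R * c := by exact_mod_cast hc'
    rw [h1 l (by omega), hP, div_pow]
    push_cast
    field_simp
    rw [hc'']
    linear_combination (c : ℝ) * ha'
  · have h2 : P.ord (T.w (i + 1)) = ((-(a * s ^ (i + 1)) : ℤ) : ℝ) / (e * (r * R : ℕ)) := by
      rw [h1 (i + 1) hi, hP, div_pow]
      push_cast
      field_simp
      linear_combination (r : ℝ) * ha'
    have h3 := Val.bez he'.ne' (Nat.mul_pos hr hR) (a := -(a * s ^ (i + 1))) ?_ hV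
      ⟨_, hS, P.ne_zero_of_ord (by
        rw [h1 (i + 1) hi]; exact (mul_neg_of_pos_of_neg (by positivity) h0).ne), h2⟩
    · rwa [Nat.cast_mul, ← mul_assoc] at h3
    · refine (IsCoprime.mul_left (Nat.isCoprime_iff_coprime.2 hc) ?_).neg_left
      refine IsCoprime.pow_left (Nat.isCoprime_iff_coprime.2 ?_)
      exact (hrs.symm.mul_right
        (Nat.Coprime.coprime_dvd_right hRd (hrs.symm.pow_right i)))

theorem common (A B : Tw k r s J S₀) (hr : 0 < r) (hs : 0 < s) (hrs : r.Coprime s)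
    (hB : Bs k S₀ Δ) {P : Plc k Ω} {e n n' : ℕ} (he : 0 < e) (hn : 0 < n) (hn' : 0 < n')
    (hA : P.ord A.b = -((n : ℝ) / e)) (hA' : P.ord B.b = -((n' : ℝ) / e))
    (hV : P.VG S₀ (1 / e)) (hx : Val P S₀ (1 / e)) {i j : ℕ} (hi : i < J) (hj : j < J)
    (hni : n < 2 ^ i) (hnj : n' < 2 ^ j) :
    r * dl k S₀ A.w B.w i j ≤ dl k S₀ A.w B.w (i + 1) (j + 1) := by
  obtain ⟨R, hR, h1, h2⟩ := pole_data A hr hs hrs he hn hA hi hni
  obtain ⟨R', hR', h1', h2'⟩ := pole_data B hr hs hrs he hn' hA' hj hnj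
  have hM := Nat.lcm_pos hR hR'
  have hr' : (0 : ℝ) < r := by exact_mod_cast hr
  have he' : (0 : ℝ) < e := by exact_mod_cast he
  have hM' : (0 : ℝ) < (Nat.lcm R R' : ℕ) := by exact_mod_cast hM
  have h3 : P.VG S₀ (1 / ((e : ℝ) * (Nat.lcm R R' : ℕ))) :=
    hV.div (Nat.lcm R R' : ℕ) (by rw [Int.cast_natCast]; field_simp)
  have h4 := vg_lv B P hr (vg_lv A P hr h3 (subset_adjoin k _ A.hb) i hi.le
    (h1 _ hM (Nat.dvd_lcm_left _ _))) (subset_adjoin k _ (Or.inl B.hb)) j hj.le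
    (h1' _ hM (Nat.dvd_lcm_right _ _))
  have hx' : Val P (S₀ ∪ lv A.w (i + 1) ∪ lv B.w (j + 1)) (1 / e) := by
    obtain ⟨x, hx1, hx2⟩ := hx
    exact ⟨x, adjoin.mono k _ _ (Set.subset_union_left.trans Set.subset_union_left) hx1, hx2⟩
  obtain ⟨z, hz, hz0, hzo⟩ := Val.lcm (by positivity) hR hR'
    (h2 _ (subset_adjoin k _ (Or.inl (Or.inr (mem_lv _ le_rfl)))) hx')
    (h2' _ (subset_adjoin k _ (Or.inr (mem_lv _ le_rfl))) hx')
  rw [← dl_mul A.w B.w (Nat.le_succ i) (Nat.le_succ j)]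
  refine Nat.mul_le_mul_right _ (deg_le (alg_of hB A.hb (Or.inl (Or.inl A.hb)))
    (fin_F hB _ _ _ _) h4 (by positivity) hz0 hz (a := 1) isCoprime_one_right ?_)
  rw [hzo]; push_cast; field_simp

theorem apart (A B : Tw k r s J S₀) (hr : 0 < r) (hs : 0 < s) (hrs : r.Coprime s)
    (hB : Bs k S₀ Δ) {P : Plc k Ω} {e : ℕ} (he : 0 < e) (heΔ : e ≤ Δ) (hA : P.ord A.b = -1)
    (hA' : P.ν B.b ≤ 1) (hV : P.VG S₀ (1 / e)) {i j : ℕ} (hi : i ≤ J) (hj : j ≤ J) :
    r ^ i * dl k S₀ A.w B.w 0 j ≤ Δ * r ^ ((j + 1) / 2) * dl k S₀ A.w B.w i j := by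
  have hr' : (0 : ℝ) < r := by exact_mod_cast hr
  have hs' : (0 : ℝ) < s := by exact_mod_cast hs
  have he' : (0 : ℝ) < e := by exact_mod_cast he
  have h1 : P.nz B.w j ≤ (j + 1) / 2 := by
    have := nz_le B P hr hs j hj
    split_ifs at this <;> omega
  have h2 : P.VG (S₀ ∪ lv A.w 0 ∪ lv B.w j) (1 / ((e : ℝ) * (r : ℝ) ^ P.nz B.w j)) := by
    refine (vg_nz B P hr he'.ne' hV (subset_adjoin k _ B.hb) hA' j hj).anti
      (Set.union_subset (Set.union_subset ?_ ?_) ?_)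
    · exact Set.subset_union_left.trans (subset_adjoin k _)
    · rw [lv_zero]
      exact Set.singleton_subset_iff.2 (w0_mem A (subset_adjoin k _ (Or.inl A.hb)))
    · exact Set.subset_union_right.trans (subset_adjoin k _)
  generalize P.nz B.w j = z at h1 h2
  have h3 := ord_pole A P hr hs (by rw [hA]; norm_num) i hi
  have hg : 0 < Nat.gcd (r ^ i) (e * r ^ z) := Nat.gcd_pos_of_pos_left _ (pow_pos hr i)
  obtain ⟨n, hn⟩ := Nat.gcd_dvd_left (r ^ i) (e * r ^ z)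
  obtain ⟨a, ha⟩ := Nat.gcd_dvd_right (r ^ i) (e * r ^ z)
  have hc : n.Coprime a := by
    have h4 := Nat.coprime_div_gcd_div_gcd hg
    rwa [Nat.div_eq_of_eq_mul_right hg hn, Nat.div_eq_of_eq_mul_right hg ha] at h4
  have hle : Nat.gcd (r ^ i) (e * r ^ z) ≤ e * r ^ z :=
    Nat.gcd_le_right _ (Nat.mul_pos he (pow_pos hr z))
  generalize Nat.gcd (r ^ i) (e * r ^ z) = g at hg hn ha hle
  have hn' : (r : ℝ) ^ i = g * n := by exact_mod_cast hn
  have ha' : (e : ℝ) * r ^ z = g * a := by exact_mod_cast ha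
  have h5 : n ≤ (Fix k (S₀ ∪ lv A.w i ∪ lv B.w j)).relIndex
      (Fix k (S₀ ∪ lv A.w 0 ∪ lv B.w j)) := by
    refine deg_le (alg_of hB A.hb (Or.inl (Or.inl A.hb))) (fin_F hB _ _ _ _) h2 (by positivity)
      (z := A.w i) (P.ne_zero_of_ord ?_)
      (subset_adjoin k _ (Or.inl (Or.inr (mem_lv _ le_rfl)))) (a := -(a * s ^ i)) ?_ ?_
    · rw [h3, hA]; positivity
    · refine (IsCoprime.mul_right (Nat.isCoprime_iff_coprime.2 hc) ?_).neg_right
      refine IsCoprime.pow_right (Nat.isCoprime_iff_coprime.2 ?_)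
      exact Nat.Coprime.coprime_dvd_left (Dvd.intro_left _ hn.symm) (hrs.pow_left i)
    · rw [h3, hA, div_pow]
      push_cast
      field_simp
      linear_combination (a : ℝ) * hn' - (n : ℝ) * ha'
  rw [← dl_mul A.w B.w (Nat.zero_le i) (le_refl j), ← mul_assoc]
  refine Nat.mul_le_mul_right _ ?_
  rw [hn]
  exact Nat.mul_le_mul (hle.trans (Nat.mul_le_mul heΔ (Nat.pow_le_pow_right hr h1))) h5

end Main

theorem pole (hE : PlcExStmt) (hF : PFStmt) : PoleStmt := by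
  intro k Ω _ _ _ _ _ _ r s J Δ S₀ A B hr hs hrs hB
  have hr0 : 0 < r := by omega
  have hs0 : 0 < s := by omega
  have L : ∀ (T : Tw k r s J S₀) (w' : ℕ → Ω), ∀ i ≤ J, r ^ i ≤ Δ * dl k S₀ T.w w' i 0 := by
    intro T w' i hi
    obtain ⟨P, hP, -⟩ := hE k Ω T.b (hB.tr _ T.hb).1 (hB.tr _ T.hb).2
    exact low T w' hr0 hs0 hrs hB hP ((hF k Ω).2.1 _ _ hP).1 hi
  refine ⟨L A B.w, ?_⟩
  obtain ⟨Q, hP, -⟩ := hE k Ω A.b (hB.tr _ A.hb).1 (hB.tr _ A.hb).2
  obtain ⟨e, he, heΔ, hV, hx, hb⟩ := hB.vg _ A.hb _ hP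
  have he' : (0 : ℝ) < e := by exact_mod_cast he
  have hΔ := hB.one
  by_cases h : (Q none).ord B.b < 0
  · refine Or.inl ⟨⟨Q none, by rw [hP]; norm_num, h⟩, fun i hi j hj h1 h2 => ?_⟩
    obtain ⟨m, hm⟩ := hV _ (subset_adjoin k _ B.hb) ((Q none).ne_zero_of_ord h.ne)
    have hm0 : m < 0 := by
      by_contra h0
      have : (0 : ℝ) ≤ m := by exact_mod_cast not_lt.1 h0
      rw [hm] at h
      exact absurd h (not_lt.2 (by positivity))
    obtain ⟨n', hn'⟩ : ∃ n' : ℕ, m = -(n' : ℤ) := ⟨m.natAbs, by omega⟩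
    have h3 : (Q none).ord B.b = -((n' : ℝ) / e) := by rw [hm, hn']; push_cast; ring
    have h4 : n' ≤ Δ ^ 2 := by
      have h5 := hb _ B.hb
      rw [h3, neg_neg, div_le_iff₀ he'] at h5
      have h6 : n' ≤ Δ * e := by exact_mod_cast h5
      nlinarith
    exact common A B hr0 hs0 hrs hB he he (by omega) (by rw [hP]; field_simp) h3 hV hx hi hj
      (by nlinarith) (by omega)
  · refine Or.inr fun i hi j hj => ?_
    have h1 := apart A B hr0 hs0 hrs hB he heΔ hP ((Q none).ord_nonneg_iff.1 (not_lt.1 h)) hV hi hj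
    have h2 := L B A.w j hj
    rw [← dl_symm] at h2
    calc r ^ (i + j) = r ^ i * r ^ j := pow_add _ _ _
      _ ≤ r ^ i * (Δ * dl k S₀ A.w B.w 0 j) := Nat.mul_le_mul_left _ h2
      _ = Δ * (r ^ i * dl k S₀ A.w B.w 0 j) := by ring
      _ ≤ Δ * (Δ * r ^ ((j + 1) / 2) * dl k S₀ A.w B.w i j) := Nat.mul_le_mul_left _ h1
      _ = _ := by ring

theorem pole' : PlcExStmt → PFStmt → DLStmt → PoleStmt := fun hE hF _ => pole hE hF

end Pool.Agent.MP_09973c_nt.H55
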